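import Mathlib
import Pool.Agent.Run7.h69.QD5

/-!
# All moments of `2 ^ rank` in polynomial families of curves `y² = x³ + D x`, in short intervals

Let `E_D : y² = x³ + D x`, the elliptic curves over `ℚ` with `j = 1728`. Let `f` be a polynomial
with integer coefficients none of whose irreducible factors of positive degree has multiplicity
congruent to `2` modulo `4`. For every `k` and every `ε > 0`, the average of
`2 ^ (k * rank E_{f(t)})` over the integers `t` of an interval `(x, x + H]` is bounded, uniformly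
in `x` and `H ≥ |x| ^ ε`.

The proof uses the descent by the two dual isogenies of degree two between `E_D` and `E_{-4D}`:
at an odd prime dividing `D` to an odd power the two local images have order two and are generated
by `D` and `-D`, so the product of the two Selmer counts has the same shape as for the quadratic
twists of a curve with full rational 2-torsion.
-/

namespace Pool.Agent.Results.MP_157626_nt.QuarticTwistMoments

open Finset Polynomial

/-- the curve `y² = x³ + D x` over `ℚ` -/
def E (D : ℤ) : WeierstrassCurve ℚ := ⟨0, 0, 0, (D : ℚ), 0⟩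

/-- All moments of `2 ^ rank` are bounded on average in polynomial families of the curves
`y² = x³ + f(t) x`, uniformly in short intervals. -/
theorem result (f : ℤ[X]) (hf : ∀ q : ℤ[X], Irreducible q → 0 < q.natDegree →
    multiplicity q f % 4 ≠ 2) (k : ℕ) (ε : ℝ) (hε : 0 < ε) :
    ∃ C : ℝ, ∀ (x : ℤ) (H : ℕ), 1 ≤ H → |(x : ℝ)| ^ ε ≤ H →
      ∑ t ∈ (Ioc x (x + H)).filter (fun t => f.eval t ≠ 0),
        (2 : ℝ) ^ (k * Module.finrank ℤ (E (f.eval t)).toAffine.Point) ≤ C * H := by
  by_cases hf0 : f = 0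
  · refine ⟨0, fun x H _ _ => ?_⟩
    have h1 : (Ioc x (x + H)).filter (fun t => f.eval t ≠ 0) = ∅ := by
      rw [filter_eq_empty_iff]
      intro t _ h
      rw [hf0, eval_zero] at h
      exact h rfl
    rw [h1, sum_empty, zero_mul]
  set M : ℕ := ⌈1 / ε⌉₊ with hM
  obtain ⟨C, hC⟩ := Run7.h69.QD.main f hf0 hf k M
  refine ⟨C, fun x H hH hx => ?_⟩
  have hHr : (1 : ℝ) ≤ H := by exact_mod_cast hH
  have h1 : x.natAbs ≤ H ^ M := by
    have h2 : |(x : ℝ)| ≤ (H : ℝ) ^ (M : ℝ) := by
      calc |(x : ℝ)| = (|(x : ℝ)| ^ ε) ^ (1 / ε) := by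
            rw [← Real.rpow_mul (abs_nonneg _), mul_one_div_cancel hε.ne', Real.rpow_one]
        _ ≤ (H : ℝ) ^ (1 / ε) := Real.rpow_le_rpow (by positivity) hx (by positivity)
        _ ≤ (H : ℝ) ^ (M : ℝ) := Real.rpow_le_rpow_of_exponent_le hHr (Nat.le_ceil _)
    rw [Real.rpow_natCast] at h2
    have h3 : ((x.natAbs : ℕ) : ℝ) = |(x : ℝ)| := by
      rw [Nat.cast_natAbs, Int.cast_abs]
    have h4 : ((x.natAbs : ℕ) : ℝ) ≤ ((H ^ M : ℕ) : ℝ) := by
      rw [h3]
      push_cast
      exact h2
    exact_mod_cast h4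
  refine le_trans (le_of_eq ?_) (hC x H hH h1)
  unfold Run7.h69.NX.II
  refine sum_congr rfl fun t _ => ?_
  unfold Run7.h69.QD.rq
  rw [← pow_mul, mul_comm]
  rfl

end Pool.Agent.Results.MP_157626_nt.QuarticTwistMoments
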