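import Mathlib
import Pool.Agent.Run7.h69.TM

/-!
# All moments of `2 ^ rank` in polynomial families of quadratic twists, in short intervals

Let `E : y² = x (x - a) (x - b)` be an elliptic curve over `ℚ` with full rational 2-torsion
(`a`, `b` integers) and let `E_d : y² = x (x - a d) (x - b d)` be its quadratic twist by `d`.
For every polynomial `f` with integer coefficients, every `k` and every `ε > 0`, the average of
`2 ^ (k * rank E_{f(t)})` over the integers `t` of an interval `(x, x + H]` is bounded, uniformly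
in `x` and `H ≥ |x| ^ ε`.
-/

namespace Pool.Agent.Results.MP_157626_nt.TwistMoments

open Finset Polynomial

/-- the curve `y² = x (x - A) (x - B)` over `ℚ` -/
def E (A B : ℤ) : WeierstrassCurve ℚ := ⟨0, -((A : ℚ) + B), 0, (A : ℚ) * B, 0⟩

/-- All moments of `2 ^ rank` are bounded on average in polynomial families of quadratic twists,
uniformly in short intervals. -/
theorem result (a b : ℤ) (ha : a ≠ 0) (hb : b ≠ 0) (hab : a ≠ b) (f : ℤ[X]) (k : ℕ) (ε : ℝ)
    (hε : 0 < ε) : ∃ C : ℝ, ∀ (x : ℤ) (H : ℕ), 1 ≤ H → |(x : ℝ)| ^ ε ≤ H →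
      ∑ t ∈ (Ioc x (x + H)).filter (fun t => f.eval t ≠ 0),
        (2 : ℝ) ^ (k * Module.finrank ℤ (E (a * f.eval t) (b * f.eval t)).toAffine.Point) ≤
          C * H := by
  set M : ℕ := ⌈1 / ε⌉₊ with hM
  obtain ⟨C, hC⟩ := Run7.h69.TM.main ha hb hab f k M
  refine ⟨C, fun x H hH hx => ?_⟩
  have hHr : (1 : ℝ) ≤ H := by exact_mod_cast hH
  have h1 : x.natAbs ≤ H ^ M := by
    have h2 : |(x : ℝ)| ≤ (H : ℝ) ^ (M : ℝ) := by
      calc |(x : ℝ)| = (|(x : ℝ)| ^ ε) ^ (1 / ε) := by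
            rw [← Real.rpow_mul (abs_nonneg _), mul_one_div_cancel hε.ne', Real.rpow_one]
        _ ≤ (H : ℝ) ^ (1 / ε) := Real.rpow_le_rpow (by positivity) hx (by positivity)
        _ ≤ (H : ℝ) ^ (M : ℝ) := Real.rpow_le_rpow_of_exponent_le hHr (Nat.le_ceil _)
    rw [Real.rpow_natCast] at h2
    have h3 : ((x.natAbs : ℕ) : ℝ) = |(x : ℝ)| := by
      rw [Nat.cast_natAbs, Int.cast_abs]
    have h4 : ((x.natAbs : ℕ) : ℝ) ≤ ((H ^ M : ℕ) : ℝ) := by
      rw [h3]
      push_cast
      exact h2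
    exact_mod_cast h4
  refine le_trans (le_of_eq ?_) (hC x H hH h1)
  unfold Run7.h69.NX.II
  refine sum_congr rfl fun t _ => ?_
  unfold Run7.h69.TM.rr
  rw [← pow_mul, mul_comm]
  rfl

end Pool.Agent.Results.MP_157626_nt.TwistMoments
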